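import Pool.Agent.Work.MP_d47e79_lc.Cor3

namespace Pool.Agent.Results.MP_d47e79_lc.AllCliqueSizes

open Filter Asymptotics Pool.Agent.Work.MP_d47e79_lc

/-- There is an absolute constant `C` such that for every `k` with
`log⁴ n ≪ k ≪ n / log⁴ n` every degree `D` of size at least `C log n (1 + log⁺ (√n / k))` succeeds
at planted clique. For `k = Θ(n^a)`, `0 < a < 1/2`, this is the degree `O(log² n)` of Q1
(`q1_of_unified`), for `k = ε √n` the degree `O_ε(log n)` of Q2 (`q2_of_unified`). -/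
theorem result :
    ∃ C : ℝ, 0 < C ∧ ∀ (k : ℕ → ℝ) (D : ℕ → ℕ), (∀ n, 0 ≤ k n) →
      (fun n : ℕ => Real.log n ^ 4) =o[atTop] k →
      k =o[atTop] (fun n : ℕ => (n : ℝ) / Real.log n ^ 4) →
      (∀ᶠ n : ℕ in atTop,
        C * Real.log n * (1 + max 0 (Real.log (Real.sqrt n / k n))) ≤ D n) →
      Succeeds k D :=
  ⟨1632, by norm_num, unified⟩

end Pool.Agent.Results.MP_d47e79_lc.AllCliqueSizes
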